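import Pool.Agent.H47.SQ.Targets
import Pool.Agent.H86.SSM.DGX
import Pool.Agent.H67.PLN.PL2

/-!
# A fixed assignment is good for almost all formulas with clauses in a large set (row PGO)
-/

set_option autoImplicit false

namespace Pool.Agent.H33.SQR

open Finset Pool.Agent.H97.RK Pool.Agent.H41.SS Pool.Agent.H47.SR

theorem pf_PGO : T_PGO := by
  classical
  intro n k m D d w Ω hn hk hdw hΩ hΩ2 x
  obtain ⟨N, hN⟩ : ∃ N : ℝ, N = Ω.card := ⟨_, rfl⟩
  unfold prb
  rw [← hN]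
  have hn0 : (0 : ℝ) < n := by exact_mod_cast hn
  have hOm : (0 : ℝ) < ((Om n k).card : ℝ) := by exact_mod_cast card_Om_pos hk
  have hOm2 : ((Om n k).card : ℝ) ≤ 2 * N := by
    rw [hN]
    exact_mod_cast hΩ2
  have hNpos : 0 < N := by linarith
  obtain ⟨a₀, ha₀⟩ : ∃ a₀ : ℕ, a₀ = n - d + w := ⟨_, rfl⟩
  have hdn : d ≤ n := by omega
  have ha₀' : (a₀ : ℝ) = (n : ℝ) - d + w := by
    rw [ha₀]
    push_cast [hdn]
    ring
  rw [← ha₀']
  have hch : (2 : ℝ) ^ D * m.choose D ≤ (2 * m).choose D := by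
    exact_mod_cast Pool.Agent.H67.PLN.two_pow_mul_choose m D
  obtain ⟨P, hP⟩ : ∃ P : Finset (Fin n) × Finset (Fin n) → (Fin k → Fin n × Bool) → Prop,
      ∀ a h, P a h ↔
        ∀ i, (h i).1 ∈ (a.1 ∪ a.2)ᶜ ∪ a.2 ∧ ((h i).1 ∈ (a.1 ∪ a.2)ᶜ → x (h i).1 ≠ (h i).2) :=
    ⟨fun a h => ∀ i, (h i).1 ∈ (a.1 ∪ a.2)ᶜ ∪ a.2 ∧
      ((h i).1 ∈ (a.1 ∪ a.2)ᶜ → x (h i).1 ≠ (h i).2), fun _ _ => Iff.rfl⟩
  let I : Finset (Finset (Fin n) × Finset (Fin n)) :=
    (powersetCard d univ ×ˢ powersetCard w univ).filter fun a => Disjoint a.1 a.2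
  let S : Finset (Fin n) × Finset (Fin n) → Finset (Fml n k m) := fun a =>
    univ.filter fun F => (∀ c, F c ∈ Ω) ∧ D ≤ (univ.filter fun c => P a (F c)).card
  have hsub : (univ.filter fun F : Fml n k m => (∀ c, F c ∈ Ω) ∧ ¬ Gd F D d w x) ⊆
      I.biUnion S := by
    intro F hF
    rw [mem_filter] at hF
    have hX := hF.2.2
    unfold Gd at hX
    push Not at hX
    obtain ⟨T, W, hdis, hWw, hTW, hD⟩ := hX
    have hcU : (T ∪ W)ᶜ.card = n - (T.card + W.card) := by
      rw [card_compl, Fintype.card_fin, card_union_of_disjoint hdis]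
    obtain ⟨Z, hZ1, hZ2⟩ := exists_subset_card_eq (s := (T ∪ W)ᶜ) (n := d) (by omega)
    have hWZ : W ⊆ Zᶜ := by
      intro v hv
      rw [mem_compl]
      intro hvZ
      have := hZ1 hvZ
      rw [mem_compl] at this
      exact this (mem_union_right _ hv)
    obtain ⟨W', hW1, hW2, hW3⟩ := exists_subsuperset_card_eq hWZ hWw (by
      rw [card_compl, Fintype.card_fin, hZ2]
      omega)
    have hdZW : Disjoint Z W' := by
      rw [disjoint_left]
      intro v hv hv'
      exact (mem_compl.1 (hW2 hv')) hv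
    rw [mem_biUnion]
    refine ⟨(Z, W'), ?_, ?_⟩
    · rw [mem_filter, mem_product]
      exact ⟨⟨mem_powersetCard.2 ⟨subset_univ _, hZ2⟩, mem_powersetCard.2 ⟨subset_univ _, hW3⟩⟩,
        hdZW⟩
    · rw [mem_filter]
      refine ⟨mem_univ _, hF.2.1, hD.trans (card_le_card ?_)⟩
      intro c hc
      rw [mem_filter] at hc ⊢
      refine ⟨mem_univ _, (hP _ _).2 fun i => ?_⟩
      obtain ⟨-, hc1, hc2⟩ := hc
      have h1 : (F c i).1 ∉ Z := fun h => (mem_compl.1 (hZ1 h)) (hc1 i)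
      constructor
      · rw [mem_union, mem_compl, mem_union]
        by_cases h2 : (F c i).1 ∈ W'
        · exact Or.inr h2
        · exact Or.inl (fun h => h.elim h1 h2)
      · intro h2
        rw [mem_compl, mem_union, not_or] at h2
        apply hc2 i
        rcases mem_union.1 (hc1 i) with h3 | h3
        · exact h3
        · exact absurd (hW1 h3) h2.2
  have hb : ∀ a ∈ I, ((S a).card : ℝ) ≤
      (2 * m).choose D * ((a₀ : ℝ) / (2 * n)) ^ (k * D) * N ^ m := by
    intro a ha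
    rw [mem_filter, mem_product, mem_powersetCard, mem_powersetCard] at ha
    obtain ⟨⟨⟨-, hZ⟩, ⟨-, hW⟩⟩, hdis⟩ := ha
    have h1 : ((S a).card : ℝ) * N ^ D ≤
        m.choose D * ((Ω.filter (P a)).card : ℝ) ^ D * N ^ m := by
      rw [hN]
      exact count_over' m D Ω (P a) (S a) (fun F hF => (mem_filter.1 hF).2)
    have h2 : ((Ω.filter (P a)).card : ℝ) ≤ ((a₀ : ℝ) / (2 * n)) ^ k * (2 * N) := by
      have h3 := Pool.Agent.H66.RKS.card_lit x (a.1 ∪ a.2)ᶜ a.2
      have h4 : ((a.1 ∪ a.2)ᶜ).card = n - (d + w) := by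
        rw [card_compl, Fintype.card_fin, card_union_of_disjoint hdis, hZ, hW]
      rw [h4, hW] at h3
      have h5 := Pool.Agent.H86.SSM.card_clD' (k := k) _ a₀ (h3.trans (by omega)) hk hn (P a) (by
        intro g hg i
        rw [mem_filter]
        exact ⟨mem_univ _, (hP a g).1 hg i⟩)
      have h6 : ((Ω.filter (P a)).card : ℝ) ≤ (((Om n k).filter (P a)).card : ℝ) := by
        exact_mod_cast card_le_card (filter_subset_filter _ hΩ)
      exact h6.trans (h5.trans (mul_le_mul_of_nonneg_left hOm2 (by positivity)))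
    have h4 : ((S a).card : ℝ) * N ^ D ≤
        ((2 * m).choose D * ((a₀ : ℝ) / (2 * n)) ^ (k * D) * N ^ m) * N ^ D := by
      calc ((S a).card : ℝ) * N ^ D
          ≤ m.choose D * ((Ω.filter (P a)).card : ℝ) ^ D * N ^ m := h1
        _ ≤ m.choose D * (((a₀ : ℝ) / (2 * n)) ^ k * (2 * N)) ^ D * N ^ m := by
            gcongr
        _ = (2 ^ D * m.choose D) * (((a₀ : ℝ) / (2 * n)) ^ (k * D) * N ^ m) * N ^ D := by
            rw [mul_pow, mul_pow, ← pow_mul]; ring
        _ ≤ (2 * m).choose D * (((a₀ : ℝ) / (2 * n)) ^ (k * D) * N ^ m) * N ^ D := by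
            gcongr
        _ = ((2 * m).choose D * ((a₀ : ℝ) / (2 * n)) ^ (k * D) * N ^ m) * N ^ D := by ring
    exact le_of_mul_le_mul_right h4 (by positivity)
  have hI : (I.card : ℝ) ≤ (n.choose d : ℝ) * n.choose w := by
    have h1 : I.card ≤ (powersetCard d (univ : Finset (Fin n)) ×ˢ
        powersetCard w (univ : Finset (Fin n))).card := card_filter_le _ _
    rw [card_product, card_powersetCard, card_powersetCard, card_univ, Fintype.card_fin] at h1
    exact_mod_cast h1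
  calc ((univ.filter fun F : Fml n k m => (∀ c, F c ∈ Ω) ∧ ¬ Gd F D d w x).card : ℝ)
      ≤ ((I.biUnion S).card : ℝ) := by exact_mod_cast card_le_card hsub
    _ ≤ ((∑ a ∈ I, (S a).card : ℕ) : ℝ) := by exact_mod_cast card_biUnion_le
    _ = ∑ a ∈ I, ((S a).card : ℝ) := by push_cast; rfl
    _ ≤ ∑ _a ∈ I, (2 * m).choose D * ((a₀ : ℝ) / (2 * n)) ^ (k * D) * N ^ m := sum_le_sum hb
    _ = I.card * ((2 * m).choose D * ((a₀ : ℝ) / (2 * n)) ^ (k * D) * N ^ m) := by
        rw [sum_const, nsmul_eq_mul]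
    _ ≤ (n.choose d : ℝ) * n.choose w *
        ((2 * m).choose D * ((a₀ : ℝ) / (2 * n)) ^ (k * D) * N ^ m) := by
        gcongr
    _ = _ := by ring

end Pool.Agent.H33.SQR
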